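import Pool.Agent.N273.LT.Win
import Pool.Agent.N295.SR.Stm

/-!
# Project SR: summation over discs in a slab and counting of boxes (helper429)

The integration part is the one of `Pool.Agent.N273.LT.Sum3.sum_bound`.
-/

set_option autoImplicit false

open MeasureTheory Set Filter Topology Function

namespace Pool.Agent.N429.SR

open Pool.Agent.N295.SR
open Pool.Agent.N273.LT (Alt sc Bd le_sc sc_le sc_meas win_bound)

/-- Uniform bounds of the numbers of sign changes. -/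
structure UB (φ : ℝ → ℝ → ℝ) : Prop where
  c : Continuous (uncurry φ)
  b1 : ∀ x, Bd (fun t => φ x t)
  b2 : ∀ y, Bd (fun t => φ t y)
  u1 : ∀ w, ∃ B : ℝ, ∀ x y, (n1 φ w x y : ℝ) ≤ B
  u2 : ∀ w, ∃ B : ℝ, ∀ x y, (n2 φ w x y : ℝ) ≤ B

theorem UB.m1 {φ : ℝ → ℝ → ℝ} (h : UB φ) {w : ℝ} (hw : 0 < w) :
    Measurable fun p : ℝ × ℝ => n1 φ w p.1 p.2 := by
  refine sc_meas (Φ := fun (p : ℝ × ℝ) t => φ p.1 t) ?_ (fun p => h.b1 p.1) (by fun_prop)
    (by fun_prop) (fun p => by linarith)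
  have : Continuous fun q : (ℝ × ℝ) × ℝ => uncurry φ (q.1.1, q.2) := h.c.comp (by fun_prop)
  exact this

theorem UB.m2 {φ : ℝ → ℝ → ℝ} (h : UB φ) {w : ℝ} (hw : 0 < w) :
    Measurable fun p : ℝ × ℝ => n2 φ w p.1 p.2 := by
  refine sc_meas (Φ := fun (p : ℝ × ℝ) t => φ t p.2) ?_ (fun p => h.b2 p.2) (by fun_prop)
    (by fun_prop) (fun p => by linarith)
  have : Continuous fun q : (ℝ × ℝ) × ℝ => uncurry φ (q.2, q.1.2) := h.c.comp (by fun_prop)
  exact this

theorem int_of_bd {m : ℝ → ℕ} (hm : Measurable m) {B : ℝ} (hB : ∀ x, (m x : ℝ) ≤ B) {S : Set ℝ}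
    (hS : volume S ≠ ⊤) : IntegrableOn (fun x => (m x : ℝ)) S := by
  refine Measure.integrableOn_of_bounded (M := B) hS
    (((measurable_of_countable (fun n : ℕ => (n : ℝ))).comp hm).aestronglyMeasurable)
    (Filter.Eventually.of_forall fun x => ?_)
  rw [Real.norm_of_nonneg (Nat.cast_nonneg _)]
  exact hB x

theorem Z_nonneg {φ : ℝ → ℝ → ℝ} {Z : ℝ} (h : Cnt φ Z) : 0 ≤ Z := by
  have h1 := h.b 0 0 (Pool.Agent.N273.LT.Alt.zero ⟨0, mem_univ _⟩)
  exact_mod_cast h1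

theorem ub_of {φ : ℝ → ℝ → ℝ} {Z : ℝ} (hc : Continuous (uncurry φ)) (h : Cnt φ Z) : UB φ := by
  have hZ := Z_nonneg h
  have k1 : ∀ (x a b : ℝ) (n : ℕ), Alt (fun y => φ x y) (Ioo a b) n →
      (n : ℝ) ≤ Z * (1 + |b - a|) := by
    intro x a b n hn
    rcases le_or_gt a b with hab | hab
    · refine (h.a x a b n hab hn).trans ?_
      rw [abs_of_nonneg (by linarith)]
    · obtain ⟨t, -, ht, -⟩ := hn
      have h1 := ht 0 (Nat.zero_le _)
      exact absurd (h1.1.trans h1.2) (not_lt.2 hab.le)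
  have k2 : ∀ (y a b : ℝ) (n : ℕ), Alt (fun x => φ x y) (Ioo a b) n → (n : ℝ) ≤ Z := by
    intro y a b n hn
    exact h.b y n (hn.subset (subset_univ _))
  have b1 : ∀ x, Bd (fun t => φ x t) := fun x a b =>
    ⟨⌊Z * (1 + |b - a|)⌋₊, fun n hn => Nat.le_floor (k1 x a b n hn)⟩
  have b2 : ∀ y, Bd (fun t => φ t y) := fun y a b =>
    ⟨⌊Z⌋₊, fun n hn => Nat.le_floor (k2 y a b n hn)⟩
  refine ⟨hc, b1, b2, fun w => ?_, fun w => ?_⟩
  · refine ⟨Z * (1 + |2 * w|), fun x y => sc_le (b1 x) (by positivity) fun n hn => ?_⟩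
    have h1 := k1 x _ _ n hn
    have h2 : y + w - (y + -w) = 2 * w := by ring
    rwa [h2] at h1
  · exact ⟨Z, fun x y => sc_le (b2 y) hZ fun n hn => k2 y _ _ n hn⟩

section
variable {φ : ℝ → ℝ → ℝ} (hU : UB φ) {w : ℝ} (hw : 0 < w)
include hU hw

theorem z1_meas : Measurable fun P : ℝ × ℝ => ∫⁻ τ in Icc (-w) w, (n1 φ w (P.1 + τ) P.2 : ENNReal) := by
  have h1 : Measurable fun q : (ℝ × ℝ) × ℝ => (n1 φ w (q.1.1 + q.2) q.1.2 : ENNReal) :=
    (measurable_of_countable (fun n : ℕ => (n : ENNReal))).comp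
      ((hU.m1 hw).comp (by fun_prop : Measurable fun q : (ℝ × ℝ) × ℝ => (q.1.1 + q.2, q.1.2)))
  exact h1.lintegral_prod_right'

theorem z2_meas : Measurable fun P : ℝ × ℝ => ∫⁻ τ in Icc (-w) w, (n2 φ w P.1 (P.2 + τ) : ENNReal) := by
  have h1 : Measurable fun q : (ℝ × ℝ) × ℝ => (n2 φ w q.1.1 (q.1.2 + q.2) : ENNReal) :=
    (measurable_of_countable (fun n : ℕ => (n : ENNReal))).comp
      ((hU.m2 hw).comp (by fun_prop : Measurable fun q : (ℝ × ℝ) × ℝ => (q.1.1, q.1.2 + q.2)))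
  exact h1.lintegral_prod_right'

theorem I1_bound {M a b a' b' : ℝ} (hab : a ≤ b) (hM0 : 0 ≤ M)
    (hM : ∀ x s (n : ℕ), Alt (fun t => φ x t) (Ioo s (s + (b - a + 4 * w))) n → (n : ℝ) ≤ M) :
    ∫⁻ P in (Icc a' b' ×ˢ Icc a b), ∫⁻ τ in Icc (-w) w, (n1 φ w (P.1 + τ) P.2 : ENNReal) ≤
      ENNReal.ofReal (2 * w * M * (2 * w) * (b' - a')) := by
  rw [Measure.volume_eq_prod, ← Measure.prod_restrict, lintegral_prod _ (z1_meas hU hw).aemeasurable]
  have h1 : ∀ X, ∫⁻ Y in Icc a b, ∫⁻ τ in Icc (-w) w, (n1 φ w (X + τ) Y : ENNReal) ≤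
      ENNReal.ofReal (2 * w * M * (2 * w)) := by
    intro X
    have hm : Measurable (uncurry fun (Y τ : ℝ) => (n1 φ w (X + τ) Y : ENNReal)) :=
      (measurable_of_countable (fun n : ℕ => (n : ENNReal))).comp
        ((hU.m1 hw).comp (by fun_prop : Measurable fun q : ℝ × ℝ => (X + q.2, q.1)))
    rw [lintegral_lintegral_swap hm.aemeasurable]
    have h2 : ∀ τ : ℝ, ∫⁻ Y in Icc a b, (n1 φ w (X + τ) Y : ENNReal) ≤
        ENNReal.ofReal (2 * w * M) := fun τ =>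
      win_bound (u := fun t => φ (X + τ) t) (hU.c.comp (Continuous.prodMk_right (X + τ)))
        (hU.b1 _) hw hab hM0 (hM (X + τ))
    refine (lintegral_mono h2).trans ?_
    rw [lintegral_const, Measure.restrict_apply_univ, Real.volume_Icc,
      ← ENNReal.ofReal_mul (by positivity)]
    refine ENNReal.ofReal_le_ofReal (le_of_eq ?_)
    ring
  refine (lintegral_mono h1).trans ?_
  rw [lintegral_const, Measure.restrict_apply_univ, Real.volume_Icc,
    ← ENNReal.ofReal_mul (by positivity)]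

theorem I2_bound {M a b a' b' : ℝ} (hab' : a' ≤ b') (hM0 : 0 ≤ M)
    (hM : ∀ y s (n : ℕ), Alt (fun t => φ t y) (Ioo s (s + (b' - a' + 4 * w))) n → (n : ℝ) ≤ M) :
    ∫⁻ P in (Icc a' b' ×ˢ Icc a b), ∫⁻ τ in Icc (-w) w, (n2 φ w P.1 (P.2 + τ) : ENNReal) ≤
      ENNReal.ofReal (2 * w * M * (2 * w) * (b - a)) := by
  rw [Measure.volume_eq_prod, ← Measure.prod_restrict,
    lintegral_prod_symm _ (z2_meas hU hw).aemeasurable]
  have h1 : ∀ Y, ∫⁻ X in Icc a' b', ∫⁻ τ in Icc (-w) w, (n2 φ w X (Y + τ) : ENNReal) ≤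
      ENNReal.ofReal (2 * w * M * (2 * w)) := by
    intro Y
    have hm : Measurable (uncurry fun (X τ : ℝ) => (n2 φ w X (Y + τ) : ENNReal)) :=
      (measurable_of_countable (fun n : ℕ => (n : ENNReal))).comp
        ((hU.m2 hw).comp (by fun_prop : Measurable fun q : ℝ × ℝ => (q.1, Y + q.2)))
    rw [lintegral_lintegral_swap hm.aemeasurable]
    have h2 : ∀ τ : ℝ, ∫⁻ X in Icc a' b', (n2 φ w X (Y + τ) : ENNReal) ≤
        ENNReal.ofReal (2 * w * M) := fun τ =>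
      win_bound (u := fun t => φ t (Y + τ)) (hU.c.comp (Continuous.prodMk_left (Y + τ)))
        (hU.b2 _) hw hab' hM0 (hM (Y + τ))
    refine (lintegral_mono h2).trans ?_
    rw [lintegral_const, Measure.restrict_apply_univ, Real.volume_Icc,
      ← ENNReal.ofReal_mul (by positivity)]
    refine ENNReal.ofReal_le_ofReal (le_of_eq ?_)
    ring
  refine (lintegral_mono h1).trans ?_
  rw [lintegral_const, Measure.restrict_apply_univ, Real.volume_Icc,
    ← ENNReal.ofReal_mul (by positivity)]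

omit hU in
theorem ofReal_int {m : ℝ → ℕ} (hm : Measurable m) {B : ℝ} (hB : ∀ x, (m x : ℝ) ≤ B) (X : ℝ) :
    ENNReal.ofReal (∫ x in (X - w)..(X + w), (m x : ℝ)) ≤ ∫⁻ τ in Icc (-w) w, (m (X + τ) : ENNReal) := by
  rw [intervalIntegral.integral_of_le (by linarith),
    ofReal_integral_eq_lintegral_ofReal (int_of_bd hm hB measure_Ioc_lt_top.ne)
      (Filter.Eventually.of_forall fun x => Nat.cast_nonneg _)]
  simp only [ENNReal.ofReal_natCast]
  rw [← lintegral_indicator measurableSet_Ioc, ← lintegral_indicator measurableSet_Icc,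
    ← lintegral_add_left_eq_self _ X]
  refine lintegral_mono fun τ => ?_
  by_cases hτ : X + τ ∈ Ioc (X - w) (X + w)
  · have h1 : τ ∈ Icc (-w) w := ⟨by linarith [hτ.1], by linarith [hτ.2]⟩
    rw [indicator_of_mem hτ, indicator_of_mem h1]
  · rw [indicator_of_notMem hτ]
    exact bot_le

theorem ofReal_zz (X Y : ℝ) : ENNReal.ofReal (zz φ w X Y) ≤
    (∫⁻ τ in Icc (-w) w, (n1 φ w (X + τ) Y : ENNReal)) +
      ∫⁻ τ in Icc (-w) w, (n2 φ w X (Y + τ) : ENNReal) := by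
  obtain ⟨B₁, hB₁⟩ := hU.u1 w
  obtain ⟨B₂, hB₂⟩ := hU.u2 w
  have m1 : Measurable fun x => n1 φ w x Y := (hU.m1 hw).comp (measurable_id.prodMk measurable_const)
  have m2 : Measurable fun y => n2 φ w X y := (hU.m2 hw).comp (measurable_const.prodMk measurable_id)
  unfold zz
  exact ENNReal.ofReal_add_le.trans (add_le_add (ofReal_int hw m1 (fun x => hB₁ x Y) X)
    (ofReal_int hw m2 (fun y => hB₂ X y) Y))

end

/-- the box with center `p` and half-size `b` -/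
def Qb (p : ℝ × ℝ) (b : ℝ) : Set (ℝ × ℝ) := Icc (p.1 - b) (p.1 + b) ×ˢ Icc (p.2 - b) (p.2 + b)

theorem Qb_meas (p : ℝ × ℝ) (b : ℝ) : MeasurableSet (Qb p b) :=
  measurableSet_Icc.prod measurableSet_Icc

theorem Qb_vol (p : ℝ × ℝ) {b : ℝ} (hb : 0 < b) :
    volume (Qb p b) = ENNReal.ofReal ((2 * b) ^ 2) := by
  unfold Qb
  rw [Measure.volume_eq_prod, Measure.prod_prod, Real.volume_Icc, Real.volume_Icc,
    ← ENNReal.ofReal_mul (by linarith)]
  congr 1
  ring

theorem mem_Qb {p P : ℝ × ℝ} {b : ℝ} : P ∈ Qb p b ↔ |P.1 - p.1| ≤ b ∧ |P.2 - p.2| ≤ b := by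
  unfold Qb
  rw [mem_prod, mem_Icc, mem_Icc, abs_le, abs_le]
  constructor
  · rintro ⟨⟨h1, h2⟩, h3, h4⟩
    exact ⟨⟨by linarith, by linarith⟩, by linarith, by linarith⟩
  · rintro ⟨⟨h1, h2⟩, h3, h4⟩
    exact ⟨⟨by linarith, by linarith⟩, by linarith, by linarith⟩

/-- summation over boxes of bounded multiplicity -/
theorem sum_boxes {ι : Type} [Fintype ι] (p : ι → ℝ × ℝ) {b C₁ : ℝ} {BB : Set (ℝ × ℝ)}
    (hBBm : MeasurableSet BB) (hsub : ∀ i, Qb (p i) b ⊆ BB)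
    (hmult : ∀ x y, ({i | |x - (p i).1| ≤ b ∧ |y - (p i).2| ≤ b}.ncard : ℝ) ≤ C₁)
    {F : ℝ × ℝ → ENNReal} (mF : Measurable F) :
    ∑ i, ∫⁻ P in Qb (p i) b, F P ≤ ENNReal.ofReal C₁ * ∫⁻ P in BB, F P := by
  classical
  have e1 : ∑ i, ∫⁻ P in Qb (p i) b, F P = ∫⁻ P, ∑ i, (Qb (p i) b).indicator F P := by
    rw [lintegral_finsetSum _ fun i _ => mF.indicator (Qb_meas _ _)]
    refine Finset.sum_congr rfl fun i _ => ?_
    rw [lintegral_indicator (Qb_meas _ _)]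
  rw [e1, ← lintegral_const_mul _ mF, ← lintegral_indicator hBBm]
  refine lintegral_mono fun P => ?_
  have e2 : ∑ i, (Qb (p i) b).indicator F P =
      ((Finset.univ.filter fun i => P ∈ Qb (p i) b).card : ENNReal) * F P := by
    rw [Finset.card_filter]
    push_cast
    rw [Finset.sum_mul]
    refine Finset.sum_congr rfl fun i _ => ?_
    by_cases hP : P ∈ Qb (p i) b
    · rw [indicator_of_mem hP, if_pos hP, one_mul]
    · rw [indicator_of_notMem hP, if_neg hP, zero_mul]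
  rw [e2]
  rcases (Finset.univ.filter fun i => P ∈ Qb (p i) b).eq_empty_or_nonempty with h3 | h3
  · rw [h3]
    simp
  · obtain ⟨i, hi⟩ := h3
    rw [Finset.mem_filter] at hi
    rw [indicator_of_mem (hsub i hi.2)]
    have h5 : ((Finset.univ.filter fun i => P ∈ Qb (p i) b).card : ℝ) ≤ C₁ := by
      refine le_trans ?_ (hmult P.1 P.2)
      have h6 : ((Finset.univ.filter fun i => P ∈ Qb (p i) b) : Set ι) ⊆
          {i | |P.1 - (p i).1| ≤ b ∧ |P.2 - (p i).2| ≤ b} := by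
        intro j hj
        rw [Finset.mem_coe, Finset.mem_filter] at hj
        exact mem_Qb.1 hj.2
      have h7 := Set.ncard_le_ncard h6 (Set.toFinite _)
      rw [Set.ncard_coe_finset] at h7
      exact_mod_cast h7
    rw [← ENNReal.ofReal_natCast]
    gcongr

/-- Summation over discs in a slab. -/
theorem SLAB : S_SLAB := by
  classical
  intro φ Z hc hcnt j E s b w C₁ ι _ p d hE hs hb hb1 hw hw1 hp1 hp2 hd0 hpt hmult
  have hπ := Real.pi_pos
  have hZ := Z_nonneg hcnt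
  have hU := ub_of hc hcnt
  have hC1 : 0 ≤ C₁ := le_trans (Nat.cast_nonneg _) (hmult 0 0)
  obtain ⟨M, hM⟩ : ∃ M : ℝ, M = Z * (1 + (2 * Real.pi + 6)) := ⟨_, rfl⟩
  have hM0 : 0 ≤ M := by rw [hM]; positivity
  rw [← hM]
  set z₁ : ℝ × ℝ → ENNReal := fun P =>
    ∫⁻ τ in Icc (-w) w, (n1 φ w (P.1 + τ) P.2 : ENNReal) with hz₁
  set z₂ : ℝ × ℝ → ENNReal := fun P =>
    ∫⁻ τ in Icc (-w) w, (n2 φ w P.1 (P.2 + τ) : ENNReal) with hz₂
  have mz₁ : Measurable z₁ := z1_meas hU hw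
  have mz₂ : Measurable z₂ := z2_meas hU hw
  set F : ℝ × ℝ → ENNReal := fun P => ENNReal.ofReal E *
    (1 + ENNReal.ofReal (1 / s) * (z₁ P + z₂ P)) with hF
  have mF : Measurable F :=
    measurable_const.mul (measurable_const.add (measurable_const.mul (mz₁.add mz₂)))
  set BB : Set (ℝ × ℝ) := Icc (j - 1) (j + 2) ×ˢ Icc (-1) (2 * Real.pi + 1) with hBB
  have hBBm : MeasurableSet BB := measurableSet_Icc.prod measurableSet_Icc
  have hsub : ∀ i, Qb (p i) b ⊆ BB := by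
    intro i P hP
    have h1 := mem_Qb.1 hP
    obtain ⟨h2, h3⟩ := abs_le.1 h1.1
    obtain ⟨h4, h5⟩ := abs_le.1 h1.2
    exact ⟨⟨by linarith [(hp1 i).1], by linarith [(hp1 i).2]⟩,
      ⟨by linarith [(hp2 i).1], by linarith [(hp2 i).2]⟩⟩
  -- pointwise estimate
  have hpt' : ∀ i, ∀ P ∈ Qb (p i) b, ENNReal.ofReal (d i) ≤ F P := by
    intro i P hP
    have h1 := mem_Qb.1 hP
    refine (ENNReal.ofReal_le_ofReal (hpt i P.1 P.2 h1.1 h1.2)).trans ?_
    rw [ENNReal.ofReal_mul hE, hF]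
    simp only
    gcongr
    refine ENNReal.ofReal_add_le.trans ?_
    rw [ENNReal.ofReal_one, div_eq_mul_one_div, mul_comm, ENNReal.ofReal_mul (by positivity)]
    gcongr
    exact ofReal_zz hU hw P.1 P.2
  have hbox : ∀ i, ENNReal.ofReal (d i * (2 * b) ^ 2) ≤ ∫⁻ P in Qb (p i) b, F P := by
    intro i
    calc ENNReal.ofReal (d i * (2 * b) ^ 2)
        = ∫⁻ _ in Qb (p i) b, ENNReal.ofReal (d i) := by
          rw [setLIntegral_const, Qb_vol _ hb, ← ENNReal.ofReal_mul (hd0 i)]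
      _ ≤ _ := setLIntegral_mono mF fun P hP => hpt' i P hP
  have hsum := sum_boxes p hBBm hsub hmult mF
  -- the integral over the slab
  have hI₁ : ∫⁻ P in BB, z₁ P ≤
      ENNReal.ofReal (2 * w * M * (2 * w) * (j + 2 - (j - 1))) :=
    I1_bound hU hw (by linarith) hM0 (fun x t n hn => by
      refine (hcnt.a x t _ n (by linarith) hn).trans ?_
      rw [hM]
      refine mul_le_mul_of_nonneg_left ?_ hZ
      linarith)
  have hI₂ : ∫⁻ P in BB, z₂ P ≤
      ENNReal.ofReal (2 * w * Z * (2 * w) * (2 * Real.pi + 1 - (-1))) :=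
    I2_bound hU hw (by linarith) hZ (fun y t n hn => hcnt.b y n (hn.subset (subset_univ _)))
  have l1 : j + 2 - (j - 1) = 3 := by ring
  have l2 : 2 * Real.pi + 1 - (-1) = 2 * Real.pi + 2 := by ring
  rw [l1] at hI₁
  rw [l2] at hI₂
  have hBE : ∫⁻ P in BB, F P ≤ ENNReal.ofReal (E * (3 * (2 * Real.pi + 2) +
      4 * w ^ 2 / s * (3 * M + (2 * Real.pi + 2) * Z))) := by
    have hvB : ∫⁻ _ in BB, (1 : ENNReal) = ENNReal.ofReal (3 * (2 * Real.pi + 2)) := by
      rw [setLIntegral_one, hBB, Measure.volume_eq_prod, Measure.prod_prod, Real.volume_Icc,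
        Real.volume_Icc, l1, l2, ← ENNReal.ofReal_mul (by norm_num)]
    have k1 : Measurable fun P => z₁ P + z₂ P := mz₁.add mz₂
    have k2 : Measurable fun P => ENNReal.ofReal (1 / s) * (z₁ P + z₂ P) :=
      measurable_const.mul k1
    have k3 : Measurable fun P => 1 + ENNReal.ofReal (1 / s) * (z₁ P + z₂ P) :=
      measurable_const.add k2
    have k4 : Measurable fun _ : ℝ × ℝ => (1 : ENNReal) := measurable_const
    rw [hF]
    simp only
    rw [ENNReal.ofReal_mul hE]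
    rw [lintegral_const_mul _ k3, lintegral_add_left k4, lintegral_const_mul _ k1,
      lintegral_add_left mz₁, hvB]
    refine mul_le_mul' le_rfl ?_
    rw [ENNReal.ofReal_add (by positivity) (by positivity)]
    refine add_le_add le_rfl ?_
    refine (mul_le_mul' le_rfl (add_le_add hI₁ hI₂)).trans ?_
    rw [← ENNReal.ofReal_add (by positivity) (by positivity), ← ENNReal.ofReal_mul (by positivity)]
    refine ENNReal.ofReal_le_ofReal (le_of_eq ?_)
    field_simp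
    ring
  have hT0 : 0 ≤ C₁ * (E * (3 * (2 * Real.pi + 2) +
      4 * w ^ 2 / s * (3 * M + (2 * Real.pi + 2) * Z))) := by positivity
  have hfin : ENNReal.ofReal (∑ i, d i * (2 * b) ^ 2) ≤
      ENNReal.ofReal (C₁ * (E * (3 * (2 * Real.pi + 2) +
        4 * w ^ 2 / s * (3 * M + (2 * Real.pi + 2) * Z)))) := by
    rw [ENNReal.ofReal_sum_of_nonneg fun i _ => mul_nonneg (hd0 i) (sq_nonneg _)]
    refine (Finset.sum_le_sum fun i _ => hbox i).trans (hsum.trans ?_)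
    rw [ENNReal.ofReal_mul hC1]
    gcongr
  rw [ENNReal.ofReal_le_ofReal_iff hT0, ← Finset.sum_mul] at hfin
  refine hfin.trans (le_of_eq ?_)
  ring

/-- Counting boxes in an annulus. -/
theorem BOX : S_BOX := by
  classical
  intro Ta Tb b C₁ ι _ p hb hb1 hT hp1 hp2 hmult
  have hπ := Real.pi_pos
  have hC1 : 0 ≤ C₁ := le_trans (Nat.cast_nonneg _) (hmult 0 0)
  set BB : Set (ℝ × ℝ) := Icc (Ta - 1) (Tb + 1) ×ˢ Icc (-1) (2 * Real.pi + 1) with hBB
  have hBBm : MeasurableSet BB := measurableSet_Icc.prod measurableSet_Icc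
  have hsub : ∀ i, Qb (p i) b ⊆ BB := by
    intro i P hP
    have h1 := mem_Qb.1 hP
    obtain ⟨h2, h3⟩ := abs_le.1 h1.1
    obtain ⟨h4, h5⟩ := abs_le.1 h1.2
    exact ⟨⟨by linarith [(hp1 i).1], by linarith [(hp1 i).2]⟩,
      ⟨by linarith [(hp2 i).1], by linarith [(hp2 i).2]⟩⟩
  have hsum := sum_boxes p hBBm hsub hmult (F := fun _ => 1) measurable_const
  have hvB : ∫⁻ _ in BB, (1 : ENNReal) =
      ENNReal.ofReal ((Tb - Ta + 2) * (2 * Real.pi + 2)) := by
    rw [setLIntegral_one, hBB, Measure.volume_eq_prod, Measure.prod_prod, Real.volume_Icc,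
      Real.volume_Icc, ← ENNReal.ofReal_mul (by linarith)]
    congr 1
    ring
  have hT0 : 0 ≤ C₁ * ((Tb - Ta + 2) * (2 * Real.pi + 2)) := by
    have : 0 ≤ Tb - Ta := by linarith
    positivity
  rw [hvB, ← ENNReal.ofReal_mul hC1] at hsum
  have h1 : ∑ i, ∫⁻ _ in Qb (p i) b, (1 : ENNReal) =
      ENNReal.ofReal ((Fintype.card ι : ℝ) * (2 * b) ^ 2) := by
    simp only [setLIntegral_one, Qb_vol _ hb, Finset.sum_const, Finset.card_univ, nsmul_eq_mul]
    rw [ENNReal.ofReal_mul (Nat.cast_nonneg _), ENNReal.ofReal_natCast]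
  rw [h1, ENNReal.ofReal_le_ofReal_iff hT0] at hsum
  exact hsum

end Pool.Agent.N429.SR
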